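import Pool.Agent.Helper66_DML.Defs

set_option autoImplicit false

namespace Pool.Agent.Helper66_DML

open MvPolynomial

/-- value of a form at a scaled vector -/
lemma aeval_smul_of_hom {σ K L : Type*} [Fintype σ] [Field K] [Field L] [Algebra K L]
    {P : MvPolynomial σ K} {m : ℕ} (hP : P.IsHomogeneous m) (c : L) (v : σ → L) :
    aeval (fun i => c * v i) P = c ^ m * aeval v P := by
  rw [aeval_def, aeval_def, eval₂_eq', eval₂_eq', Finset.mul_sum]
  apply Finset.sum_congr rfl
  intro d hd
  have hdeg : d.degree = m := by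
    by_contra h
    exact (MvPolynomial.mem_support_iff.1 hd) (hP.coeff_eq_zero h)
  have h2 : ∏ i, (c * v i) ^ d i = c ^ m * ∏ i, v i ^ d i := by
    simp_rw [mul_pow]
    rw [Finset.prod_mul_distrib, Finset.prod_pow_eq_pow_sum]
    congr 2
    rw [← hdeg, Finsupp.degree_eq_sum]
  rw [h2]; ring

lemma eval_smul_of_hom {σ L : Type*} [Fintype σ] [Field L]
    {P : MvPolynomial σ L} {m : ℕ} (hP : P.IsHomogeneous m) (c : L) (v : σ → L) :
    eval (fun i => c * v i) P = c ^ m * eval v P := by
  have := aeval_smul_of_hom (L := L) hP c v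
  simpa [MvPolynomial.aeval_eq_eval] using this

section
variable {K : Type} [Field K] {N : ℕ}

/-- The representative of `mk v` is a nonzero multiple of `v`. -/
lemma exists_rep (v : Fin (N + 1) → AlgebraicClosure K) (hv : v ≠ 0) :
    ∃ c : AlgebraicClosure K, c ≠ 0 ∧
      (Projectivization.mk (AlgebraicClosure K) v hv).rep = fun i => c * v i := by
  obtain ⟨a, ha⟩ := Projectivization.exists_smul_eq_mk_rep (AlgebraicClosure K) v hv
  refine ⟨a, a.ne_zero, ?_⟩
  rw [← ha]
  rfl

lemma mk_eq_mk_of {v w : Fin (N + 1) → AlgebraicClosure K} (hv : v ≠ 0) (hw : w ≠ 0)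
    (c : AlgebraicClosure K) (h : v = fun i => c * w i) :
    Projectivization.mk (AlgebraicClosure K) v hv = Projectivization.mk (AlgebraicClosure K) w hw := by
  rw [Projectivization.mk_eq_mk_iff']
  exact ⟨c, h.symm⟩

lemma mk_eq_mk_iff_exists {v w : Fin (N + 1) → AlgebraicClosure K} (hv : v ≠ 0) (hw : w ≠ 0) :
    Projectivization.mk (AlgebraicClosure K) v hv = Projectivization.mk (AlgebraicClosure K) w hw ↔
      ∃ c : AlgebraicClosure K, v = fun i => c * w i := by
  rw [Projectivization.mk_eq_mk_iff']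
  constructor
  · rintro ⟨c, h⟩; exact ⟨c, h.symm⟩
  · rintro ⟨c, h⟩; exact ⟨c, h.symm⟩

lemma evalTuple_smul {F : Fin (N + 1) → MvPolynomial (Fin (N + 1)) K} {m : ℕ}
    (hF : ∀ i, (F i).IsHomogeneous m) (c : AlgebraicClosure K)
    (v : Fin (N + 1) → AlgebraicClosure K) :
    evalTuple F (fun i => c * v i) = fun i => c ^ m * evalTuple F v i := by
  funext i
  exact aeval_smul_of_hom (hF i) c v

/-- `Represents` may be tested on any representative. -/
lemma represents_mk {F : Fin (N + 1) → MvPolynomial (Fin (N + 1)) K} {m : ℕ}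
    (hF : ∀ i, (F i).IsHomogeneous m) {g : PN (AlgebraicClosure K) N → PN (AlgebraicClosure K) N}
    {v : Fin (N + 1) → AlgebraicClosure K} (hv : v ≠ 0)
    (h : Represents F g (Projectivization.mk _ v hv)) :
    ∃ h' : evalTuple F v ≠ 0, g (Projectivization.mk _ v hv) =
      Projectivization.mk (AlgebraicClosure K) (evalTuple F v) h' := by
  obtain ⟨h1, h2⟩ := h
  obtain ⟨c, hc, hrep⟩ := exists_rep v hv
  have e : evalTuple F (Projectivization.mk (AlgebraicClosure K) v hv).rep
      = fun i => c ^ m * evalTuple F v i := by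
    rw [hrep, evalTuple_smul hF]
  have h3 : evalTuple F v ≠ 0 := by
    intro h0
    apply h1
    rw [e, h0]
    funext i; simp
  refine ⟨h3, ?_⟩
  rw [h2]
  exact mk_eq_mk_of _ _ (c ^ m) e

end

end Pool.Agent.Helper66_DML
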