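import Mathlib

set_option autoImplicit false

/-!
# Classical language for the Jones-Silverman question on value sets

`K` is a field, `AlgebraicClosure K` its algebraic closure, and `PN L N` is the projective space of
dimension `N` over a field `L` (lines through the origin of `L ^ (N + 1)`, Mathlib's
`Projectivization`).  Projective varieties over `K` are described in the classical way by their sets
of geometric points.
-/

namespace Pool.Agent.Helper66_DML

open MvPolynomial

/-- The points of `N`-dimensional projective space over the field `L`. -/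
abbrev PN (L : Type) [Field L] (N : ℕ) : Type := Projectivization L (Fin (N + 1) → L)

/-- The vector of values `(F₀(v), …, F_N(v))` of a tuple of polynomials over `K` at a vector `v` with
coordinates in the algebraic closure of `K`. -/
noncomputable def evalTuple {K : Type} [Field K] {N : ℕ}
    (F : Fin (N + 1) → MvPolynomial (Fin (N + 1)) K)
    (v : Fin (N + 1) → AlgebraicClosure K) : Fin (N + 1) → AlgebraicClosure K :=
  fun i => aeval v (F i)

/-- `Z` is the set of geometric points of a Zariski closed subset of projective `N`-space which is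
defined over `K`: it is the common zero set of some set `S` of homogeneous polynomials over `K`. -/
def IsClosedOver (K : Type) [Field K] {N : ℕ} (Z : Set (PN (AlgebraicClosure K) N)) : Prop :=
  ∃ S : Set (MvPolynomial (Fin (N + 1)) K),
    (∀ P ∈ S, ∃ m : ℕ, P.IsHomogeneous m) ∧
    Z = {p | ∀ P ∈ S, aeval p.rep P = 0}

/-- Geometric irreducibility of a closed set `Z`: it is nonempty, and if a product of two homogeneous
polynomials over the algebraic closure vanishes on `Z`, then one of the two factors does (the
homogeneous ideal of `Z` over the algebraic closure is prime). -/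
def IsGeomIrreducible (K : Type) [Field K] {N : ℕ} (Z : Set (PN (AlgebraicClosure K) N)) : Prop :=
  Z.Nonempty ∧
  ∀ (A B : MvPolynomial (Fin (N + 1)) (AlgebraicClosure K)) (a b : ℕ),
    A.IsHomogeneous a → B.IsHomogeneous b →
    (∀ p ∈ Z, eval p.rep A * eval p.rep B = 0) →
    (∀ p ∈ Z, eval p.rep A = 0) ∨ (∀ p ∈ Z, eval p.rep B = 0)

/-- `Z` is (the set of geometric points of) a projective variety over `K` in projective `N`-space:
closed, defined over `K`, and geometrically irreducible. -/
def IsVariety (K : Type) [Field K] {N : ℕ} (Z : Set (PN (AlgebraicClosure K) N)) : Prop :=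
  IsClosedOver K Z ∧ IsGeomIrreducible K Z

/-- A point of projective space which is `K`-rational: it is represented by a vector with all
coordinates in `K`. -/
def IsRational (K : Type) [Field K] {N : ℕ} (p : PN (AlgebraicClosure K) N) : Prop :=
  ∃ (v : Fin (N + 1) → K) (hv : (fun i => algebraMap K (AlgebraicClosure K) (v i)) ≠ 0),
    p = Projectivization.mk (AlgebraicClosure K) (fun i => algebraMap K (AlgebraicClosure K) (v i)) hv

/-- The tuple of forms `F` represents the point map `g` at the point `p`: the values `Fᵢ(p)` are not
all zero, and `g p` is the point with homogeneous coordinates `[F₀(p) : … : F_N(p)]`. -/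
def Represents {K : Type} [Field K] {N : ℕ} (F : Fin (N + 1) → MvPolynomial (Fin (N + 1)) K)
    (g : PN (AlgebraicClosure K) N → PN (AlgebraicClosure K) N) (p : PN (AlgebraicClosure K) N) :
    Prop :=
  ∃ h : evalTuple F p.rep ≠ 0, g p = Projectivization.mk (AlgebraicClosure K) (evalTuple F p.rep) h

/-- `g` restricts to a morphism `Z → Z` defined over `K`: it maps `Z` to `Z`, and near every point of
`Z` it is given by a tuple of forms over `K` of one common degree (so `g` is regular on `Z`). -/
def IsSelfMorphism (K : Type) [Field K] {N : ℕ} (Z : Set (PN (AlgebraicClosure K) N))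
    (g : PN (AlgebraicClosure K) N → PN (AlgebraicClosure K) N) : Prop :=
  (∀ p ∈ Z, g p ∈ Z) ∧
  ∀ p ∈ Z, ∃ (m : ℕ) (G : Fin (N + 1) → MvPolynomial (Fin (N + 1)) K),
    (∀ i, (G i).IsHomogeneous m) ∧ evalTuple G p.rep ≠ 0 ∧
    ∀ q ∈ Z, evalTuple G q.rep ≠ 0 → Represents G g q

/-- `f` restricts to a morphism `X → X` over `K` which is polarized by `O_X(1)` with multiplier `d`:
there are `N + 1` forms over `K` of the same degree `d ≥ 2`, without common zero on `X`, which
represent `f` at every point of `X`; so `f^* O_X(1) = O_X(d)`. -/
def IsPolarizedEndo (K : Type) [Field K] {N : ℕ} (X : Set (PN (AlgebraicClosure K) N))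
    (f : PN (AlgebraicClosure K) N → PN (AlgebraicClosure K) N) : Prop :=
  (∀ p ∈ X, f p ∈ X) ∧
  ∃ (d : ℕ) (F : Fin (N + 1) → MvPolynomial (Fin (N + 1)) K),
    2 ≤ d ∧ (∀ i, (F i).IsHomogeneous d) ∧ ∀ p ∈ X, Represents F f p

/-- The value set `g(Z(K))`: the images under `g` of the `K`-rational points of `Z`. -/
def valueSet (K : Type) [Field K] {N : ℕ} (Z : Set (PN (AlgebraicClosure K) N))
    (g : PN (AlgebraicClosure K) N → PN (AlgebraicClosure K) N) :
    Set (PN (AlgebraicClosure K) N) :=
  g '' {z | z ∈ Z ∧ IsRational K z}

/-- The return set `S(f, g, α) = {n : f^n(α) ∈ g(Z(K))}`. -/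
def returnSet (K : Type) [Field K] {N : ℕ} (Z : Set (PN (AlgebraicClosure K) N))
    (f g : PN (AlgebraicClosure K) N → PN (AlgebraicClosure K) N)
    (α : PN (AlgebraicClosure K) N) : Set ℕ :=
  {n | f^[n] α ∈ valueSet K Z g}

/-- The set `S` is a finite union of arithmetic progressions `{a + k b : k ∈ ℕ}` (with `b = 0`
allowed, so that finite sets are included). -/
def IsFiniteUnionAP (S : Set ℕ) : Prop :=
  ∃ T : Finset (ℕ × ℕ), S = {n | ∃ t ∈ T, ∃ k : ℕ, n = t.1 + k * t.2}

end Pool.Agent.Helper66_DML
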