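import Mathlib

set_option autoImplicit false

/-!
# The Chebyshev orbit of `6/5` has a sign sequence which is not eventually periodic
-/

namespace Pool.Agent.Helper66_DML

/-- numerators: `a 0 = 6`, `a (n+1) = a n ^ 2 - 2 * 25 ^ (2 ^ n)`. -/
def num : ℕ → ℤ
  | 0 => 6
  | n + 1 => num n ^ 2 - 2 * (5 ^ (2 ^ n)) ^ 2

/-- denominators `5 ^ (2 ^ n)`. -/
def den (n : ℕ) : ℤ := 5 ^ (2 ^ n)

lemma den_succ (n : ℕ) : den (n + 1) = den n ^ 2 := by
  unfold den; rw [pow_succ 2 n, pow_mul]

lemma den_pos (n : ℕ) : 0 < den n := by unfold den; positivity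

lemma num_succ (n : ℕ) : num (n + 1) = num n ^ 2 - 2 * den n ^ 2 := rfl

lemma not_five_dvd_num (n : ℕ) : ¬ (5 : ℤ) ∣ num n := by
  induction n with
  | zero => decide
  | succ n ih =>
    intro h
    apply ih
    rw [num_succ] at h
    have h2 : (5 : ℤ) ∣ 2 * den n ^ 2 := by
      apply Dvd.dvd.mul_left
      apply dvd_pow _ (by norm_num)
      unfold den
      exact dvd_pow_self 5 (by positivity)
    have h3 : (5 : ℤ) ∣ num n ^ 2 := by
      have := dvd_add h h2
      simpa using this
    exact Int.Prime.dvd_pow' (by norm_num) h3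

/-- The orbit `c n = T^n (6/5)`, `T x = x ^ 2 - 2`. -/
noncomputable def orb (n : ℕ) : ℝ := (num n : ℝ) / den n

lemma orb_succ (n : ℕ) : orb (n + 1) = orb n ^ 2 - 2 := by
  have h : (den n : ℝ) ≠ 0 := by exact_mod_cast (den_pos n).ne'
  unfold orb
  rw [num_succ, den_succ]
  push_cast
  field_simp

lemma orb_injective : Function.Injective orb := by
  have key : ∀ m n : ℕ, m < n → orb m ≠ orb n := by
    intro m n hmn h
    have h1 : (den m : ℝ) ≠ 0 := by exact_mod_cast (den_pos m).ne'
    have h2 : (den n : ℝ) ≠ 0 := by exact_mod_cast (den_pos n).ne'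
    unfold orb at h
    rw [div_eq_div_iff h1 h2] at h
    have h3 : num m * den n = num n * den m := by exact_mod_cast h
    have hlt : 2 ^ m < 2 ^ n := Nat.pow_lt_pow_right (by norm_num) hmn
    have h4 : den n = den m * 5 ^ (2 ^ n - 2 ^ m) := by
      unfold den
      rw [← pow_add]
      congr 1
      omega
    rw [h4] at h3
    have h5 : num n = num m * 5 ^ (2 ^ n - 2 ^ m) := by
      have := (den_pos m).ne'
      apply mul_right_cancel₀ this
      rw [← h3]; ring
    apply not_five_dvd_num n
    rw [h5]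
    apply Dvd.dvd.mul_left
    exact dvd_pow_self 5 (by omega)
  intro m n h
  rcases lt_trichotomy m n with h' | h' | h'
  · exact absurd h (key m n h')
  · exact h'
  · exact absurd h.symm (key n m h')

lemma orb_mem (n : ℕ) : orb n ∈ Set.Icc (-2 : ℝ) 2 := by
  induction n with
  | zero => unfold orb num den; norm_num
  | succ n ih =>
    rw [orb_succ]
    obtain ⟨h1, h2⟩ := ih
    constructor <;> nlinarith [sq_nonneg (orb n)]

/-- Angle coordinate. -/
noncomputable def ang (x : ℝ) : ℝ := Real.arccos (x / 2)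

lemma ang_T_of_nonneg {x : ℝ} (h0 : 0 ≤ x) (h2 : x ≤ 2) : ang (x ^ 2 - 2) = 2 * ang x := by
  unfold ang
  have hc : Real.cos (2 * Real.arccos (x / 2)) = (x ^ 2 - 2) / 2 := by
    rw [Real.cos_two_mul, Real.cos_arccos (by linarith) (by linarith)]
    ring
  rw [← hc]
  apply Real.arccos_cos
  · have := Real.arccos_nonneg (x / 2); linarith
  · have : Real.arccos (x / 2) ≤ Real.pi / 2 := Real.arccos_le_pi_div_two.2 (by linarith)
    linarith

lemma ang_T_of_nonpos {x : ℝ} (h0 : x ≤ 0) (h2 : -2 ≤ x) :
    ang (x ^ 2 - 2) = 2 * Real.pi - 2 * ang x := by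
  have h := ang_T_of_nonneg (x := -x) (by linarith) (by linarith)
  have h' : ang (-x) = Real.pi - ang x := by
    unfold ang
    rw [neg_div, Real.arccos_neg]
  rw [neg_sq, h'] at h
  rw [h]; ring

lemma expand {x y : ℝ} (hx : x ∈ Set.Icc (-2 : ℝ) 2) (hy : y ∈ Set.Icc (-2 : ℝ) 2)
    (h : 0 ≤ x ↔ 0 ≤ y) :
    |ang (x ^ 2 - 2) - ang (y ^ 2 - 2)| = 2 * |ang x - ang y| := by
  by_cases h0 : 0 ≤ x
  · rw [ang_T_of_nonneg h0 hx.2, ang_T_of_nonneg (h.1 h0) hy.2, ← mul_sub, abs_mul]
    norm_num
  · have h1 : ¬ 0 ≤ y := fun h' => h0 (h.2 h')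
    push Not at h0 h1
    rw [ang_T_of_nonpos h0.le hx.1, ang_T_of_nonpos h1.le hy.1]
    have : 2 * Real.pi - 2 * ang x - (2 * Real.pi - 2 * ang y) = (-2) * (ang x - ang y) := by ring
    rw [this, abs_mul]
    norm_num

lemma abs_ang_sub_le (x y : ℝ) : |ang x - ang y| ≤ Real.pi := by
  have h1 := Real.arccos_nonneg (x / 2)
  have h2 := Real.arccos_nonneg (y / 2)
  have h3 := Real.arccos_le_pi (x / 2)
  have h4 := Real.arccos_le_pi (y / 2)
  unfold ang
  rw [abs_le]
  constructor <;> linarith

/-- The sign sequence of the orbit is not eventually periodic. -/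
theorem not_eventually_periodic (M m : ℕ) (hm : 0 < m)
    (h : ∀ n, M ≤ n → (0 ≤ num n ↔ 0 ≤ num (n + m))) : False := by
  have hs : ∀ n, 0 ≤ orb n ↔ 0 ≤ num n := by
    intro n
    have h1 : (0 : ℝ) < den n := by exact_mod_cast den_pos n
    unfold orb
    constructor
    · intro h
      by_contra h'
      push Not at h'
      have : (num n : ℝ) < 0 := by exact_mod_cast h'
      have := div_neg_of_neg_of_pos this h1
      linarith
    · intro h
      have : (0 : ℝ) ≤ num n := by exact_mod_cast h
      positivity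
  have h2 : ∀ k, |ang (orb (M + k)) - ang (orb (M + m + k))|
      = 2 ^ k * |ang (orb M) - ang (orb (M + m))| := by
    intro k
    induction k with
    | zero => simp
    | succ k ih =>
      have e : |ang (orb (M + k + 1)) - ang (orb (M + m + k + 1))| =
          2 * |ang (orb (M + k)) - ang (orb (M + m + k))| := by
        rw [orb_succ, orb_succ]
        apply expand (orb_mem _) (orb_mem _)
        rw [hs, hs]
        have := h (M + k) (by omega)
        rw [this]
        have e : M + k + m = M + m + k := by omega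
        rw [e]
      rw [← add_assoc, ← add_assoc, e, ih, pow_succ]
      ring
  have h3 : |ang (orb M) - ang (orb (M + m))| = 0 := by
    by_contra hne
    have hpos : 0 < |ang (orb M) - ang (orb (M + m))| := lt_of_le_of_ne (abs_nonneg _) (Ne.symm hne)
    obtain ⟨k, hk⟩ := pow_unbounded_of_one_lt (Real.pi / |ang (orb M) - ang (orb (M + m))|)
      (by norm_num : (1 : ℝ) < 2)
    have h4 := h2 k
    have h5 := abs_ang_sub_le (orb (M + k)) (orb (M + m + k))
    rw [div_lt_iff₀ hpos] at hk
    linarith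
  have h4 : ang (orb M) = ang (orb (M + m)) := by
    have := abs_eq_zero.1 h3
    linarith
  have h5 : orb M = orb (M + m) := by
    unfold ang at h4
    have a1 := orb_mem M
    have a2 := orb_mem (M + m)
    have := Real.arccos_injOn (x₁ := orb M / 2) (x₂ := orb (M + m) / 2)
      ⟨by linarith [a1.1], by linarith [a1.2]⟩ ⟨by linarith [a2.1], by linarith [a2.2]⟩ h4
    linarith
  have := orb_injective h5
  omega

end Pool.Agent.Helper66_DML
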