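import Pool.Agent.Helper66_DML.Basic
import Pool.Agent.Helper66_DML.Dynamics

set_option autoImplicit false

/-!
# The variety `Z = {x v² = w (u₁² + u₂² + u₃² + u₄²)} ⊂ ℙ¹ × ℙ⁴ ⊂ ℙ⁹`
-/

namespace Pool.Agent.Helper66_DML

open MvPolynomial

/-- position of the coordinate `x t_i` -/
def r0 (i : Fin 5) : Fin (9 + 1) := ⟨i.val, by omega⟩
/-- position of the coordinate `w t_i` -/
def r1 (i : Fin 5) : Fin (9 + 1) := ⟨i.val + 5, by omega⟩

lemma cases10 {p : Fin (9 + 1) → Prop} (h0 : ∀ i, p (r0 i)) (h1 : ∀ i, p (r1 i)) : ∀ k, p k := by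
  intro k
  by_cases h : k.val < 5
  · exact h0 ⟨k.val, h⟩
  · have h2 : k = r1 ⟨k.val - 5, by omega⟩ := by
      apply Fin.ext
      simp only [r1]
      omega
    rw [h2]; exact h1 _

/-- the Segre vector `(x t, w t)` -/
def seg {L : Type*} [Mul L] (x w : L) (t : Fin 5 → L) : Fin (9 + 1) → L :=
  fun k => if h : k.val < 5 then x * t ⟨k.val, h⟩ else w * t ⟨k.val - 5, by omega⟩

@[simp] lemma seg_r0 {L : Type*} [Mul L] (x w : L) (t : Fin 5 → L) (i : Fin 5) :
    seg x w t (r0 i) = x * t i := by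
  simp [seg, r0]

@[simp] lemma seg_r1 {L : Type*} [Mul L] (x w : L) (t : Fin 5 → L) (i : Fin 5) :
    seg x w t (r1 i) = w * t i := by
  simp [seg, r1]

/-- the vector with `x` in position `x t_1` and `w` in position `x t_2`, zero elsewhere -/
def line {L : Type*} [Zero L] (x w : L) : Fin (9 + 1) → L :=
  fun k => if k = r0 1 then x else if k = r0 2 then w else 0

lemma line_ne_zero {L : Type*} [Zero L] {x w : L} (h : x ≠ 0 ∨ w ≠ 0) : line x w ≠ 0 := by
  intro h0
  have h1 := congrFun h0 (r0 1)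
  have h2 := congrFun h0 (r0 2)
  simp only [line, r0] at h1 h2
  rcases h with h | h
  · apply h; simpa using h1
  · apply h; simpa using h2

/-- the equations of `Z` on a vector -/
def IsZ {L : Type*} [Field L] (v : Fin (9 + 1) → L) : Prop :=
  (∀ i j, v (r0 i) * v (r1 j) = v (r0 j) * v (r1 i)) ∧
  v (r0 0) ^ 2 = ∑ j : Fin 4, v (r0 j.succ) * v (r1 j.succ) ∧
  v (r0 0) * v (r1 0) = ∑ j : Fin 4, v (r1 j.succ) ^ 2

/-- the defining polynomials of `Z` -/
noncomputable def polysZ : Set (MvPolynomial (Fin (9 + 1)) ℚ) :=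
  {P | ∃ i j, P = X (r0 i) * X (r1 j) - X (r0 j) * X (r1 i)} ∪
  {X (r0 0) ^ 2 - ∑ j : Fin 4, X (r0 j.succ) * X (r1 j.succ),
   X (r0 0) * X (r1 0) - ∑ j : Fin 4, X (r1 j.succ) ^ 2}

/-- the variety `Z` (geometric points) -/
noncomputable def Zset : Set (PN (AlgebraicClosure ℚ) 9) := {p | ∀ P ∈ polysZ, aeval p.rep P = 0}

lemma mem_Zset_iff (p : PN (AlgebraicClosure ℚ) 9) : p ∈ Zset ↔ IsZ p.rep := by
  unfold Zset polysZ IsZ
  simp only [Set.mem_ofPred_eq, Set.mem_union, Set.mem_insert_iff, Set.mem_singleton_iff]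
  constructor
  · intro h
    refine ⟨fun i j => ?_, ?_, ?_⟩
    · have := h _ (Or.inl ⟨i, j, rfl⟩)
      simpa [sub_eq_zero] using this
    · have := h _ (Or.inr (Or.inl rfl))
      simpa [sub_eq_zero] using this
    · have := h _ (Or.inr (Or.inr rfl))
      simpa [sub_eq_zero] using this
  · rintro ⟨h1, h2, h3⟩ P (⟨i, j, rfl⟩ | rfl | rfl)
    · simpa [sub_eq_zero] using h1 i j
    · simpa [sub_eq_zero] using h2
    · simpa [sub_eq_zero] using h3

lemma isZ_smul {L : Type*} [Field L] {v : Fin (9 + 1) → L} (h : IsZ v) (c : L) :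
    IsZ (fun i => c * v i) := by
  obtain ⟨h1, h2, h3⟩ := h
  refine ⟨fun i j => ?_, ?_, ?_⟩
  · linear_combination c ^ 2 * h1 i j
  · rw [mul_pow, h2, Finset.mul_sum]
    exact Finset.sum_congr rfl fun j _ => by ring
  · have : c * v (r0 0) * (c * v (r1 0)) = c ^ 2 * (v (r0 0) * v (r1 0)) := by ring
    rw [this, h3, Finset.mul_sum]
    exact Finset.sum_congr rfl fun j _ => by ring

lemma isZ_smul_iff {L : Type*} [Field L] {v : Fin (9 + 1) → L} {c : L} (hc : c ≠ 0) :
    IsZ (fun i => c * v i) ↔ IsZ v := by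
  constructor
  · intro h
    have := isZ_smul h c⁻¹
    simpa [← mul_assoc, inv_mul_cancel₀ hc] using this
  · exact fun h => isZ_smul h c

lemma mk_mem_Zset_iff {v : Fin (9 + 1) → AlgebraicClosure ℚ} (hv : v ≠ 0) :
    Projectivization.mk _ v hv ∈ Zset ↔ IsZ v := by
  rw [mem_Zset_iff]
  obtain ⟨c, hc, h⟩ := exists_rep v hv
  rw [h, isZ_smul_iff hc]

lemma isZ_line {L : Type*} [Field L] (x w : L) : IsZ (line x w) := by
  have hr1 : ∀ j, line x w (r1 j) = 0 := by
    intro j
    simp only [line, r0, r1, Fin.ext_iff]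
    have h1 : ¬ (j.val + 5 = (1 : Fin 5).val) := by simp
    have h2 : ¬ (j.val + 5 = (2 : Fin 5).val) := by
      have : (2 : Fin 5).val = 2 := rfl
      omega
    simp only [h1, h2, if_false]
  have h00 : line x w (r0 0) = 0 := by
    simp [line, r0]
  refine ⟨fun i j => ?_, ?_, ?_⟩
  · rw [hr1, hr1]; ring
  · rw [h00]; simp [hr1]
  · simp [hr1]

lemma isZ_seg {L : Type*} [Field L] {x w : L} {t : Fin 5 → L}
    (h : x * t 0 ^ 2 = w * ∑ j : Fin 4, t j.succ ^ 2) : IsZ (seg x w t) := by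
  refine ⟨fun i j => ?_, ?_, ?_⟩
  · simp only [seg_r0, seg_r1]; ring
  · simp only [seg_r0, seg_r1]
    have : (x * t 0) ^ 2 = x * (x * t 0 ^ 2) := by ring
    rw [this, h, Finset.mul_sum, Finset.mul_sum]
    exact Finset.sum_congr rfl fun j _ => by ring
  · simp only [seg_r0, seg_r1]
    have : x * t 0 * (w * t 0) = w * (x * t 0 ^ 2) := by ring
    rw [this, h, Finset.mul_sum, Finset.mul_sum]
    exact Finset.sum_congr rfl fun j _ => by ring

/-- Every nonzero solution of the equations is a Segre vector. -/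
lemma exists_seg {L : Type*} [Field L] {v : Fin (9 + 1) → L} (hv : v ≠ 0) (h : IsZ v) :
    ∃ (x w : L) (t : Fin 5 → L), (x ≠ 0 ∨ w ≠ 0) ∧ t ≠ 0 ∧ v = seg x w t ∧
      x * t 0 ^ 2 = w * ∑ j : Fin 4, t j.succ ^ 2 := by
  obtain ⟨h1, h2, h3⟩ := h
  obtain ⟨i, hi⟩ : ∃ i, v (r0 i) ≠ 0 ∨ v (r1 i) ≠ 0 := by
    by_contra hcon
    push Not at hcon
    apply hv
    funext k
    exact cases10 (p := fun k => v k = 0) (fun i => (hcon i).1) (fun i => (hcon i).2) k
  have key : ∃ t : Fin 5 → L, v = seg (v (r0 i)) (v (r1 i)) t := by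
    by_cases hx : v (r0 i) = 0
    · have hw : v (r1 i) ≠ 0 := by
        rcases hi with hi | hi
        · exact absurd hx hi
        · exact hi
      refine ⟨fun j => v (r1 j) / v (r1 i), ?_⟩
      funext k
      refine cases10 (p := fun k => v k = seg (v (r0 i)) (v (r1 i)) (fun j => v (r1 j) / v (r1 i)) k)
        (fun j => ?_) (fun j => ?_) k
      · rw [seg_r0]
        have := h1 i j
        rw [hx] at this ⊢
        rw [zero_mul] at this ⊢
        rcases mul_eq_zero.1 this.symm with h | h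
        · exact h
        · exact absurd h hw
      · rw [seg_r1]; field_simp
    · refine ⟨fun j => v (r0 j) / v (r0 i), ?_⟩
      funext k
      refine cases10 (p := fun k => v k = seg (v (r0 i)) (v (r1 i)) (fun j => v (r0 j) / v (r0 i)) k)
        (fun j => ?_) (fun j => ?_) k
      · rw [seg_r0]; field_simp
      · rw [seg_r1]
        have := h1 i j
        field_simp
        linear_combination this
  obtain ⟨t, ht⟩ := key
  set x := v (r0 i) with hxdef
  set w := v (r1 i) with hwdef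
  refine ⟨x, w, t, hi, ?_, ht, ?_⟩
  · rintro rfl
    apply hv
    rw [ht]
    funext k
    exact cases10 (p := fun k => seg x w (0 : Fin 5 → L) k = 0) (fun i => by simp) (fun i => by simp) k
  · rw [ht] at h2 h3
    simp only [seg_r0, seg_r1] at h2 h3
    have e2 : x * (x * t 0 ^ 2 - w * ∑ j : Fin 4, t j.succ ^ 2) = 0 := by
      have : ∑ j : Fin 4, x * t j.succ * (w * t j.succ) = x * (w * ∑ j : Fin 4, t j.succ ^ 2) := by
        rw [Finset.mul_sum, Finset.mul_sum]
        exact Finset.sum_congr rfl fun j _ => by ring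
      rw [this] at h2
      linear_combination h2
    have e3 : w * (x * t 0 ^ 2 - w * ∑ j : Fin 4, t j.succ ^ 2) = 0 := by
      have : ∑ j : Fin 4, (w * t j.succ) ^ 2 = w * (w * ∑ j : Fin 4, t j.succ ^ 2) := by
        rw [Finset.mul_sum, Finset.mul_sum]
        exact Finset.sum_congr rfl fun j _ => by ring
      rw [this] at h3
      linear_combination h3
    have : x * t 0 ^ 2 - w * ∑ j : Fin 4, t j.succ ^ 2 = 0 := by
      rcases hi with hi | hi
      · exact (mul_eq_zero.1 e2).resolve_left hi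
      · exact (mul_eq_zero.1 e3).resolve_left hi
    linear_combination this

end Pool.Agent.Helper66_DML
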