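import Pool.Agent.Helper66_DML.Irred

set_option autoImplicit false

/-!
# The return set of the example
-/

namespace Pool.Agent.Helper66_DML

open MvPolynomial

lemma not_isFiniteUnionAP_of {S : Set ℕ}
    (h : ∀ M m : ℕ, 0 < m → ¬ ∀ n, M ≤ n → (n ∈ S ↔ n + m ∈ S)) : ¬ IsFiniteUnionAP S := by
  rintro ⟨T, hT⟩
  set m : ℕ := ∏ t ∈ T, (if t.2 = 0 then 1 else t.2) with hm
  set M : ℕ := (∑ t ∈ T, t.1) + 1 with hM
  have hmpos : 0 < m := by
    apply Finset.prod_pos
    intro t _
    split_ifs with h0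
    · norm_num
    · omega
  apply h M m hmpos
  intro n hn
  rw [hT]
  simp only [Set.mem_ofPred_eq]
  have hle : ∀ t ∈ T, t.1 ≤ ∑ t ∈ T, t.1 := fun t ht =>
    Finset.single_le_sum (f := fun t : ℕ × ℕ => t.1) (fun _ _ => Nat.zero_le _) ht
  have hdvd : ∀ t ∈ T, t.2 ≠ 0 → t.2 ∣ m := by
    intro t ht h0
    have := Finset.dvd_prod_of_mem (fun t : ℕ × ℕ => if t.2 = 0 then 1 else t.2) ht
    simpa [h0] using this
  constructor
  · rintro ⟨t, ht, k, hk⟩
    have h1 := hle t ht
    have h0 : t.2 ≠ 0 := by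
      intro h0
      rw [h0] at hk
      omega
    obtain ⟨c, hc⟩ := hdvd t ht h0
    exact ⟨t, ht, k + c, by rw [hk, hc]; ring⟩
  · rintro ⟨t, ht, k, hk⟩
    have h1 := hle t ht
    have h0 : t.2 ≠ 0 := by
      intro h0
      rw [h0] at hk
      omega
    obtain ⟨c, hc⟩ := hdvd t ht h0
    refine ⟨t, ht, k - c, ?_⟩
    have hkc : c ≤ k := by
      by_contra hlt
      push Not at hlt
      have : k * t.2 ≤ c * t.2 := Nat.mul_le_mul_right _ hlt.le
      rw [hc] at hk
      nlinarith
    obtain ⟨e, rfl⟩ := Nat.exists_eq_add_of_le hkc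
    rw [hc] at hk
    have : c + e - c = e := by omega
    rw [this]
    nlinarith

/-- the vector of `line x w` for rational `x, w`. -/
lemma line_map (x w : ℚ) :
    (fun k => algebraMap ℚ Qb (line x w k)) = line (algebraMap ℚ Qb x) (algebraMap ℚ Qb w) := by
  funext k
  simp only [line]
  split_ifs <;> simp

lemma map_line_ne_zero {x w : ℚ} (h : x ≠ 0 ∨ w ≠ 0) :
    line (algebraMap ℚ Qb x) (algebraMap ℚ Qb w) ≠ 0 := by
  apply line_ne_zero
  rcases h with h | h
  · left; simpa using h
  · right; simpa using h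

/-- the rational point of the line with coordinates `[x : w]`. -/
noncomputable def pt (x w : ℚ) (h : x ≠ 0 ∨ w ≠ 0) : PN Qb 9 :=
  Projectivization.mk Qb (line (algebraMap ℚ Qb x) (algebraMap ℚ Qb w)) (map_line_ne_zero h)

lemma isRational_pt (x w : ℚ) (h : x ≠ 0 ∨ w ≠ 0) : IsRational ℚ (pt x w h) := by
  refine ⟨line x w, ?_, ?_⟩
  · intro h0
    exact map_line_ne_zero h ((line_map x w).symm.trans h0)
  · unfold pt
    congr 1
    exact (line_map x w).symm

lemma mem_valueSet_of_nonneg {x w : ℚ} (hw : w ≠ 0) (h : 0 ≤ x * w) :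
    pt x w (Or.inr hw) ∈ valueSet ℚ Zset gmap := by
  -- four squares
  obtain ⟨u, hu⟩ : ∃ u : Fin 4 → ℚ, x * w = ∑ j, u j ^ 2 := by
    have hq : ((x * w).num.toNat * (x * w).den : ℕ) = (x * w) * ((x * w).den : ℚ) ^ 2 := by
      have h1 : ((x * w).num.toNat : ℤ) = (x * w).num := Int.toNat_of_nonneg (Rat.num_nonneg.2 h)
      have h2 : (((x * w).num.toNat : ℤ) : ℚ) = (x * w) * ((x * w).den : ℚ) := by
        rw [h1]; exact (Rat.mul_den_eq_num (x * w)).symm
      push_cast at h2 ⊢
      rw [h2]; ring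
    obtain ⟨a, b, c, d, habcd⟩ := Nat.sum_four_squares ((x * w).num.toNat * (x * w).den)
    have hden : ((x * w).den : ℚ) ≠ 0 := by exact_mod_cast (x * w).den_nz
    refine ⟨![a / (x * w).den, b / (x * w).den, c / (x * w).den, d / (x * w).den], ?_⟩
    rw [← habcd] at hq
    simp only [Fin.sum_univ_four, Matrix.cons_val_zero, Matrix.cons_val_one, Matrix.cons_val]
    push_cast at hq
    field_simp
    linear_combination -hq
  -- the point of Z
  let t : Fin 5 → ℚ := Fin.cons w u
  have ht0 : t 0 = w := rfl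
  have hts : ∀ j : Fin 4, t j.succ = u j := fun j => rfl
  have hne : seg x w t ≠ 0 := by
    intro h0
    have := congrFun h0 (r1 0)
    rw [seg_r1, ht0] at this
    apply hw
    simpa using this
  have hmap : (fun k => algebraMap ℚ Qb (seg x w t k))
      = seg (algebraMap ℚ Qb x) (algebraMap ℚ Qb w) (fun i => algebraMap ℚ Qb (t i)) := by
    funext k
    refine cases10 (p := fun k => algebraMap ℚ Qb (seg x w t k)
      = seg (algebraMap ℚ Qb x) (algebraMap ℚ Qb w) (fun i => algebraMap ℚ Qb (t i)) k)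
      (fun i => ?_) (fun i => ?_) k
    · simp only [seg_r0]; simp
    · simp only [seg_r1]; simp
  have hne' : (fun k => algebraMap ℚ Qb (seg x w t k)) ≠ 0 := by
    intro h0
    apply hne
    funext k
    have := congrFun h0 k
    simpa using this
  have hZ : IsZ (seg (algebraMap ℚ Qb x) (algebraMap ℚ Qb w) (fun i => algebraMap ℚ Qb (t i))) := by
    apply isZ_seg
    simp only [ht0, hts]
    have : x * w ^ 2 = w * ∑ j : Fin 4, u j ^ 2 := by rw [← hu]; ring
    have h2 := congrArg (algebraMap ℚ Qb) this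
    simpa using h2
  have hxw : algebraMap ℚ Qb x ≠ 0 ∨ algebraMap ℚ Qb w ≠ 0 := by
    right; simpa using hw
  refine ⟨Projectivization.mk Qb (fun k => algebraMap ℚ Qb (seg x w t k)) hne', ⟨?_, ?_⟩, ?_⟩
  · rw [mk_mem_Zset_iff, hmap]; exact hZ
  · exact ⟨seg x w t, hne', rfl⟩
  · have hne'' : seg (algebraMap ℚ Qb x) (algebraMap ℚ Qb w) (fun i => algebraMap ℚ Qb (t i)) ≠ 0 := by
      rw [← hmap]; exact hne'
    have h1 := gmap_seg hxw hZ hne''
    have h2 : Projectivization.mk Qb (fun k => algebraMap ℚ Qb (seg x w t k)) hne'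
        = Projectivization.mk Qb _ hne'' := by
      congr 1
    rw [h2, h1]
    rfl

lemma nonneg_of_mem_valueSet {x w : ℚ} (hw : w ≠ 0)
    (h : pt x w (Or.inr hw) ∈ valueSet ℚ Zset gmap) : 0 ≤ x * w := by
  obtain ⟨p, ⟨hpZ, v, hv, rfl⟩, hg⟩ := h
  rw [mk_mem_Zset_iff] at hpZ
  -- the equations hold over ℚ
  have hZ : IsZ v := by
    obtain ⟨h1, h2, h3⟩ := hpZ
    refine ⟨fun i j => ?_, ?_, ?_⟩
    · have := h1 i j
      apply (algebraMap ℚ Qb).injective
      simpa using this
    · apply (algebraMap ℚ Qb).injective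
      simpa using h2
    · apply (algebraMap ℚ Qb).injective
      simpa using h3
  have hv0 : v ≠ 0 := by
    rintro rfl
    apply hv
    funext k; simp
  obtain ⟨x', w', t, hxw, ht, rfl, he⟩ := exists_seg hv0 hZ
  have hmap : (fun k => algebraMap ℚ Qb (seg x' w' t k))
      = seg (algebraMap ℚ Qb x') (algebraMap ℚ Qb w') (fun i => algebraMap ℚ Qb (t i)) := by
    funext k
    refine cases10 (p := fun k => algebraMap ℚ Qb (seg x' w' t k)
      = seg (algebraMap ℚ Qb x') (algebraMap ℚ Qb w') (fun i => algebraMap ℚ Qb (t i)) k)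
      (fun i => ?_) (fun i => ?_) k
    · simp only [seg_r0]; simp
    · simp only [seg_r1]; simp
  have hxw' : algebraMap ℚ Qb x' ≠ 0 ∨ algebraMap ℚ Qb w' ≠ 0 := by
    rcases hxw with h | h
    · left; simpa using h
    · right; simpa using h
  have hne'' : seg (algebraMap ℚ Qb x') (algebraMap ℚ Qb w') (fun i => algebraMap ℚ Qb (t i)) ≠ 0 := by
    rw [← hmap]; exact hv
  have hZ' : IsZ (seg (algebraMap ℚ Qb x') (algebraMap ℚ Qb w') (fun i => algebraMap ℚ Qb (t i))) := by
    rw [← hmap]; exact hpZ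
  have h1 := gmap_seg hxw' hZ' hne''
  have h2 : Projectivization.mk Qb (fun k => algebraMap ℚ Qb (seg x' w' t k)) hv
      = Projectivization.mk Qb _ hne'' := by
    congr 1
  replace hg : Projectivization.mk Qb (line (algebraMap ℚ Qb x') (algebraMap ℚ Qb w'))
      (line_ne_zero hxw') = pt x w (Or.inr hw) := by
    rw [← h1, ← h2]; exact hg
  unfold pt at hg
  rw [mk_eq_mk_iff_exists] at hg
  obtain ⟨c, hc⟩ := hg
  have e1 := congrFun hc (r0 1)
  have e2 := congrFun hc (r0 2)
  have h21 : (r0 2 : Fin (9 + 1)) ≠ r0 1 := Ne.symm r0_1_ne_r0_2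
  simp only [line, if_true, h21, if_false] at e1 e2
  -- x' w = w' x over ℚ
  have e3 : x' * w = w' * x := by
    apply (algebraMap ℚ Qb).injective
    rw [map_mul, map_mul, e1, e2]; ring
  -- positivity of x' w'
  have hpos : 0 ≤ x' * w' := by
    by_contra hneg
    push Not at hneg
    have hx' : x' ≠ 0 := by rintro rfl; simp at hneg
    have e4 : (x' * t 0) ^ 2 = (x' * w') * ∑ j : Fin 4, t j.succ ^ 2 := by
      linear_combination x' * he
    have hsum : 0 ≤ ∑ j : Fin 4, t j.succ ^ 2 := Finset.sum_nonneg fun j _ => sq_nonneg _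
    have hsum0 : ∑ j : Fin 4, t j.succ ^ 2 = 0 := by
      by_contra hne
      have hlt : 0 < ∑ j : Fin 4, t j.succ ^ 2 := lt_of_le_of_ne hsum (Ne.symm hne)
      have := mul_neg_of_neg_of_pos hneg hlt
      have := sq_nonneg (x' * t 0)
      linarith
    have ht0 : t 0 = 0 := by
      rw [hsum0, mul_zero] at e4
      have := pow_eq_zero_iff (two_ne_zero) |>.1 e4
      exact (mul_eq_zero.1 this).resolve_left hx'
    apply ht
    funext i
    refine Fin.cases ?_ ?_ i
    · exact ht0
    · intro j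
      have := (Finset.sum_eq_zero_iff_of_nonneg (fun j _ => sq_nonneg (t (Fin.succ j)))).1 hsum0 j
        (Finset.mem_univ _)
      simpa using this
  have hw' : w' ≠ 0 := by
    rintro rfl
    rw [zero_mul] at e3
    rcases mul_eq_zero.1 e3 with h | h
    · rcases hxw with h' | h'
      · exact h' h
      · exact h' rfl
    · exact hw h
  have e5 : x * w = (x' * w') * (w / w') ^ 2 := by
    field_simp
    linear_combination -e3
  rw [e5]
  positivity

lemma den_ne_zero (n : ℕ) : ((den n : ℤ) : ℚ) ≠ 0 := by exact_mod_cast (den_pos n).ne'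

lemma iterate_f (n : ℕ) : fmap^[n] (pt (num 0) (den 0) (Or.inr (den_ne_zero 0)))
    = pt (num n) (den n) (Or.inr (den_ne_zero n)) := by
  induction n with
  | zero => rfl
  | succ n ih =>
    rw [Function.iterate_succ_apply', ih]
    unfold pt
    rw [fmap_mk]
    apply mk_eq_mk_of _ _ 1
    rw [evalTuple_Ff_line, num_succ, den_succ]
    funext k
    simp

theorem returnSet_eq :
    returnSet ℚ Zset fmap gmap (pt (num 0) (den 0) (Or.inr (den_ne_zero 0))) = {n | 0 ≤ num n} := by
  ext n
  unfold returnSet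
  simp only [Set.mem_ofPred_eq]
  rw [iterate_f]
  have hd : (0 : ℚ) < den n := by exact_mod_cast den_pos n
  constructor
  · intro h
    have := nonneg_of_mem_valueSet (den_ne_zero n) h
    have h2 : (0 : ℚ) ≤ num n := nonneg_of_mul_nonneg_left this hd
    exact_mod_cast h2
  · intro h
    have h2 : (0 : ℚ) ≤ num n := by exact_mod_cast h
    exact mem_valueSet_of_nonneg (den_ne_zero n) (mul_nonneg h2 hd.le)

theorem not_isFiniteUnionAP :
    ¬ IsFiniteUnionAP (returnSet ℚ Zset fmap gmap (pt (num 0) (den 0) (Or.inr (den_ne_zero 0)))) := by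
  rw [returnSet_eq]
  apply not_isFiniteUnionAP_of
  intro M m hm h
  exact not_eventually_periodic M m hm h

end Pool.Agent.Helper66_DML
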