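import Pool.Agent.Helper66_DML.Maps

set_option autoImplicit false

/-!
# Geometric irreducibility of `Z` and of projective space
-/

namespace Pool.Agent.Helper66_DML

open MvPolynomial

/-- `t₁² + t₂² + t₃² + t₄²` -/
def qf {L : Type*} [Field L] (t : Fin 5 → L) : L := ∑ j : Fin 4, t j.succ ^ 2

lemma seg_smul {L : Type*} [Field L] (x w c : L) (t : Fin 5 → L) :
    seg (c * x) (c * w) t = fun k => c * seg x w t k := by
  funext k
  refine cases10 (p := fun k => seg (c * x) (c * w) t k = c * seg x w t k) (fun i => ?_) (fun i => ?_) k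
  · simp only [seg_r0]; ring
  · simp only [seg_r1]; ring

/-- the parametrization of the cone over `Z`, as a vector of polynomials -/
noncomputable def Phi : Fin (9 + 1) → MvPolynomial (Fin 5) Qb :=
  seg (∑ j : Fin 4, X j.succ ^ 2) (X 0 ^ 2) (fun i => X i)

lemma eval_Phi (t : Fin 5 → Qb) (k : Fin (9 + 1)) : eval t (Phi k) = seg (qf t) (t 0 ^ 2) t k := by
  refine cases10 (p := fun k => eval t (Phi k) = seg (qf t) (t 0 ^ 2) t k) (fun i => ?_) (fun i => ?_) k
  · simp [Phi, qf]
  · simp [Phi]

/-- pull back of a polynomial -/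
noncomputable def pull (A : MvPolynomial (Fin (9 + 1)) Qb) : MvPolynomial (Fin 5) Qb := aeval Phi A

lemma eval_pull (A : MvPolynomial (Fin (9 + 1)) Qb) (t : Fin 5 → Qb) :
    eval t (pull A) = eval (seg (qf t) (t 0 ^ 2) t) A := by
  unfold pull
  rw [MvPolynomial.aeval_def, MvPolynomial.algebraMap_eq]
  rw [← MvPolynomial.coe_eval₂Hom, ← RingHom.comp_apply]
  have : (eval t).comp (eval₂Hom C Phi) = eval (seg (qf t) (t 0 ^ 2) t) := by
    apply MvPolynomial.ringHom_ext
    · intro r; simp
    · intro k; simp [eval_Phi]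
  rw [this]

lemma vanish_of_pull_eq_zero {A : MvPolynomial (Fin (9 + 1)) Qb} {a : ℕ} (hA : A.IsHomogeneous a)
    (h : pull A = 0) {v : Fin (9 + 1) → Qb} (hv : v ≠ 0) (hZ : IsZ v) : eval v A = 0 := by
  have h' : ∀ t : Fin 5 → Qb, eval (seg (qf t) (t 0 ^ 2) t) A = 0 := by
    intro t
    rw [← eval_pull, h]; simp
  obtain ⟨x, w, t, hxw, ht, rfl, he⟩ := exists_seg hv hZ
  change x * t 0 ^ 2 = w * qf t at he
  by_cases hcase : qf t = 0 ∧ t 0 ^ 2 = 0
  · obtain ⟨hq, ht0⟩ := hcase
    have ht0' : t 0 = 0 := by simpa using ht0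
    obtain ⟨j0, hj0⟩ : ∃ j : Fin 4, t j.succ ≠ 0 := by
      by_contra hcon
      push Not at hcon
      apply ht
      funext i
      refine Fin.cases ?_ ?_ i
      · exact ht0'
      · exact hcon
    obtain ⟨y, hy⟩ : ∃ y : Qb, y ^ 2 = w := IsAlgClosed.exists_pow_nat_eq w (by norm_num)
    have h2 : (2 : Qb) ≠ 0 := two_ne_zero
    set s : Qb := x / (2 * t j0.succ) with hs
    have hs' : 2 * s * t j0.succ = x := by
      rw [hs]; field_simp
    -- the curve
    let T : Qb → Fin 5 → Qb := fun τ i =>
      t i + (if i = 0 then τ * y else 0) + (if i = j0.succ then τ ^ 2 * s else 0)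
    have hT0 : ∀ τ, T τ 0 = τ * y := by
      intro τ
      have : (0 : Fin 5) ≠ j0.succ := (Fin.succ_ne_zero j0).symm
      simp [T, ht0', this]
    have hTs : ∀ τ (j : Fin 4), T τ j.succ = t j.succ + (if j = j0 then τ ^ 2 * s else 0) := by
      intro τ j
      simp [T, Fin.succ_ne_zero, Fin.succ_inj]
    have hqT : ∀ τ, qf (T τ) = τ ^ 2 * (x + τ ^ 2 * s ^ 2) := by
      intro τ
      unfold qf at hq ⊢
      simp_rw [hTs]
      have e : ∀ j : Fin 4, (t j.succ + (if j = j0 then τ ^ 2 * s else 0)) ^ 2
          = t j.succ ^ 2 + (if j = j0 then 2 * t j.succ * (τ ^ 2 * s) + (τ ^ 2 * s) ^ 2 else 0) := by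
        intro j
        split_ifs <;> ring
      simp_rw [e]
      rw [Finset.sum_add_distrib, hq, Finset.sum_ite_eq' Finset.univ j0]
      simp only [Finset.mem_univ, if_true]
      rw [← hs']
      ring
    have hcurve : ∀ τ, τ ≠ 0 → eval (seg (x + τ ^ 2 * s ^ 2) w (T τ)) A = 0 := by
      intro τ hτ
      have h1 := h' (T τ)
      rw [hqT, hT0, mul_pow, hy, seg_smul, eval_smul_of_hom hA] at h1
      rcases mul_eq_zero.1 h1 with h2 | h2
      · exact absurd h2 (pow_ne_zero _ (pow_ne_zero _ hτ))
      · exact h2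
    -- as a univariate polynomial
    let Ψ : Fin (9 + 1) → Polynomial Qb :=
      seg (Polynomial.C x + Polynomial.X ^ 2 * Polynomial.C (s ^ 2)) (Polynomial.C w)
        (fun i => Polynomial.C (t i) + (if i = 0 then Polynomial.X * Polynomial.C y else 0)
          + (if i = j0.succ then Polynomial.X ^ 2 * Polynomial.C s else 0))
    have hΨ : ∀ τ k, (Ψ k).eval τ = seg (x + τ ^ 2 * s ^ 2) w (T τ) k := by
      intro τ k
      have hcomp : ∀ i : Fin 5, ((Polynomial.C (t i) + (if i = 0 then Polynomial.X * Polynomial.C y else 0)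
          + (if i = j0.succ then Polynomial.X ^ 2 * Polynomial.C s else 0) : Polynomial Qb)).eval τ
          = T τ i := by
        intro i
        simp only [T]
        split_ifs <;> simp <;> ring
      refine cases10 (p := fun k => (Ψ k).eval τ = seg (x + τ ^ 2 * s ^ 2) w (T τ) k)
        (fun i => ?_) (fun i => ?_) k
      · simp only [Ψ, seg_r0, Polynomial.eval_mul, hcomp]
        simp
      · simp only [Ψ, seg_r1, Polynomial.eval_mul, hcomp]
        simp
    set pA : Polynomial Qb := aeval Ψ A with hpA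
    have hev : ∀ τ, pA.eval τ = eval (seg (x + τ ^ 2 * s ^ 2) w (T τ)) A := by
      intro τ
      rw [hpA, MvPolynomial.aeval_def, ← MvPolynomial.coe_eval₂Hom, ← Polynomial.coe_evalRingHom,
        ← RingHom.comp_apply]
      have : (Polynomial.evalRingHom τ).comp (eval₂Hom (algebraMap Qb (Polynomial Qb)) Ψ)
          = eval (seg (x + τ ^ 2 * s ^ 2) w (T τ)) := by
        apply MvPolynomial.ringHom_ext
        · intro r; simp
        · intro k; simp [hΨ]
      rw [this]
    have hzero : pA * Polynomial.X = 0 := by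
      apply Polynomial.funext
      intro τ
      rw [Polynomial.eval_mul, Polynomial.eval_X, Polynomial.eval_zero]
      by_cases hτ : τ = 0
      · rw [hτ]; ring
      · rw [hev, hcurve τ hτ]; ring
    have hpA0 : pA = 0 := (mul_eq_zero.1 hzero).resolve_right Polynomial.X_ne_zero
    have hfin := hev 0
    rw [hpA0, Polynomial.eval_zero] at hfin
    have hT00 : T 0 = t := by
      funext i
      simp [T]
    rw [hT00] at hfin
    simpa using hfin.symm
  · -- the generic case
    obtain ⟨c, hc0, hc1, hc2⟩ : ∃ c : Qb, c ≠ 0 ∧ qf t = c * x ∧ t 0 ^ 2 = c * w := by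
      by_cases hx : x = 0
      · have hw : w ≠ 0 := by tauto
        have hq : qf t = 0 := by
          rw [hx, zero_mul] at he
          exact (mul_eq_zero.1 he.symm).resolve_left hw
        have ht0 : t 0 ^ 2 ≠ 0 := by tauto
        exact ⟨t 0 ^ 2 / w, div_ne_zero ht0 hw, by rw [hx, hq]; ring, by field_simp⟩
      · have hq : qf t ≠ 0 := by
          intro hq
          rw [hq, mul_zero] at he
          exact hcase ⟨hq, (mul_eq_zero.1 he).resolve_left hx⟩
        refine ⟨qf t / x, div_ne_zero hq hx, by field_simp, ?_⟩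
        field_simp
        linear_combination he
    have h1 := h' t
    rw [hc1, hc2, seg_smul, eval_smul_of_hom hA] at h1
    exact (mul_eq_zero.1 h1).resolve_left (pow_ne_zero _ hc0)

theorem isGeomIrreducible_Zset : IsGeomIrreducible ℚ Zset := by
  constructor
  · exact ⟨Projectivization.mk Qb (line 1 0) (line_ne_zero (Or.inl one_ne_zero)),
      (mk_mem_Zset_iff _).2 (isZ_line _ _)⟩
  · intro A B a b hA hB hAB
    have hprod : ∀ v : Fin (9 + 1) → Qb, v ≠ 0 → IsZ v → eval v A * eval v B = 0 := by
      intro v hv hZ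
      have h1 := hAB (Projectivization.mk Qb v hv) ((mk_mem_Zset_iff hv).2 hZ)
      obtain ⟨c, hc, hrep⟩ := exists_rep v hv
      rw [hrep, eval_smul_of_hom hA, eval_smul_of_hom hB] at h1
      have h2 : c ^ a * c ^ b * (eval v A * eval v B) = 0 := by linear_combination h1
      exact (mul_eq_zero.1 h2).resolve_left (mul_ne_zero (pow_ne_zero _ hc) (pow_ne_zero _ hc))
    have hpoly : pull A * pull B * X 0 = 0 := by
      apply MvPolynomial.funext
      intro t
      rw [map_mul, map_mul, eval_pull, eval_pull, eval_X, map_zero]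
      by_cases ht : t 0 = 0
      · rw [ht, mul_zero]
      · have hne : seg (qf t) (t 0 ^ 2) t ≠ 0 := by
          intro h0
          have := congrFun h0 (r1 0)
          rw [seg_r1] at this
          apply ht
          simpa using this
        rw [hprod _ hne (isZ_seg (by unfold qf; ring)), zero_mul]
    rcases mul_eq_zero.1 hpoly with h | h
    · rcases mul_eq_zero.1 h with h | h
      · left
        intro p hp
        exact vanish_of_pull_eq_zero hA h p.rep_nonzero ((mem_Zset_iff p).1 hp)
      · right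
        intro p hp
        exact vanish_of_pull_eq_zero hB h p.rep_nonzero ((mem_Zset_iff p).1 hp)
    · exact absurd h (X_ne_zero _)

theorem isVariety_Zset : IsVariety ℚ Zset := by
  refine ⟨⟨polysZ, ?_, rfl⟩, isGeomIrreducible_Zset⟩
  unfold polysZ
  rintro P (⟨i, j, rfl⟩ | rfl | rfl)
  · refine ⟨2, IsHomogeneous.sub ?_ ?_⟩
    · exact (isHomogeneous_X ℚ _).mul (isHomogeneous_X ℚ _)
    · exact (isHomogeneous_X ℚ _).mul (isHomogeneous_X ℚ _)
  · refine ⟨2, IsHomogeneous.sub ?_ ?_⟩
    · exact (isHomogeneous_X ℚ _).pow 2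
    · exact IsHomogeneous.sum _ _ _ fun j _ => (isHomogeneous_X ℚ _).mul (isHomogeneous_X ℚ _)
  · refine ⟨2, IsHomogeneous.sub ?_ ?_⟩
    · exact (isHomogeneous_X ℚ _).mul (isHomogeneous_X ℚ _)
    · exact IsHomogeneous.sum _ _ _ fun j _ => (isHomogeneous_X ℚ _).pow 2

/-- Projective space itself is a variety. -/
theorem isVariety_univ : IsVariety ℚ (Set.univ : Set (PN Qb 9)) := by
  refine ⟨⟨∅, by simp, by ext; simp⟩, ?_, ?_⟩
  · exact ⟨Projectivization.mk Qb (line 1 0) (line_ne_zero (Or.inl one_ne_zero)), Set.mem_univ _⟩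
  · intro A B a b hA hB hAB
    have hpoly : A * B * X 0 = 0 := by
      apply MvPolynomial.funext
      intro v
      rw [map_mul, map_mul, eval_X, map_zero]
      by_cases hv0 : v 0 = 0
      · rw [hv0, mul_zero]
      · have hv : v ≠ 0 := by
          rintro rfl
          exact hv0 rfl
        have h1 := hAB (Projectivization.mk Qb v hv) (Set.mem_univ _)
        obtain ⟨c, hc, hrep⟩ := exists_rep v hv
        rw [hrep, eval_smul_of_hom hA, eval_smul_of_hom hB] at h1
        have h2 : c ^ a * c ^ b * (eval v A * eval v B) = 0 := by linear_combination h1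
        rw [(mul_eq_zero.1 h2).resolve_left (mul_ne_zero (pow_ne_zero _ hc) (pow_ne_zero _ hc)),
          zero_mul]
    rcases mul_eq_zero.1 hpoly with h | h
    · rcases mul_eq_zero.1 h with h | h
      · left; intro p _; rw [h]; simp
      · right; intro p _; rw [h]; simp
    · exact absurd h (X_ne_zero _)

end Pool.Agent.Helper66_DML
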