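import Pool.Agent.Helper66_DML.Example

set_option autoImplicit false

/-!
# The morphisms `f : ℙ⁹ → ℙ⁹` and `g : Z → Z`
-/

namespace Pool.Agent.Helper66_DML

open MvPolynomial

/-- the algebraic closure of ℚ -/
abbrev Qb : Type := AlgebraicClosure ℚ

/-- the forms defining `f` : all coordinates squared, except that the coordinate in position
`r0 1` is replaced by `z₁² - 2 z₂²`. -/
noncomputable def Ff : Fin (9 + 1) → MvPolynomial (Fin (9 + 1)) ℚ :=
  fun k => if k = r0 1 then X (r0 1) ^ 2 - 2 * X (r0 2) ^ 2 else X k ^ 2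

lemma Ff_hom (k : Fin (9 + 1)) : (Ff k).IsHomogeneous 2 := by
  unfold Ff
  split_ifs
  · apply IsHomogeneous.sub
    · exact (isHomogeneous_X ℚ _).pow 2
    · have h2 : (2 : MvPolynomial (Fin (9 + 1)) ℚ) = C 2 := by rw [map_ofNat]
      rw [h2]
      have := ((isHomogeneous_X ℚ (r0 2)).pow 2).C_mul (r := (2 : ℚ))
      simpa using this
  · exact (isHomogeneous_X ℚ _).pow 2

lemma evalTuple_Ff (v : Fin (9 + 1) → Qb) : evalTuple Ff v =
    fun k => if k = r0 1 then v (r0 1) ^ 2 - 2 * v (r0 2) ^ 2 else v k ^ 2 := by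
  funext k
  unfold evalTuple Ff
  split_ifs with h <;> simp

lemma r0_1_ne_r0_2 : r0 1 ≠ r0 2 := by
  simp [r0, Fin.ext_iff]

lemma evalTuple_Ff_ne_zero {v : Fin (9 + 1) → Qb} (hv : v ≠ 0) : evalTuple Ff v ≠ 0 := by
  rw [evalTuple_Ff]
  intro h
  apply hv
  have h2 : v (r0 2) = 0 := by
    have := congrFun h (r0 2)
    rw [if_neg (Ne.symm r0_1_ne_r0_2)] at this
    exact pow_eq_zero_iff (two_ne_zero) |>.1 this
  have h1 : v (r0 1) = 0 := by
    have := congrFun h (r0 1)
    rw [if_pos rfl, h2] at this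
    simpa using this
  funext k
  by_cases hk : k = r0 1
  · rw [hk]; exact h1
  · have := congrFun h k
    rw [if_neg hk] at this
    exact pow_eq_zero_iff (two_ne_zero) |>.1 this

/-- the endomorphism `f` of `ℙ⁹` -/
noncomputable def fmap (p : PN Qb 9) : PN Qb 9 :=
  Projectivization.mk Qb (evalTuple Ff p.rep) (evalTuple_Ff_ne_zero p.rep_nonzero)

lemma fmap_represents (p : PN Qb 9) : Represents Ff fmap p :=
  ⟨evalTuple_Ff_ne_zero p.rep_nonzero, rfl⟩

lemma fmap_mk {v : Fin (9 + 1) → Qb} (hv : v ≠ 0) :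
    fmap (Projectivization.mk Qb v hv) =
      Projectivization.mk Qb (evalTuple Ff v) (evalTuple_Ff_ne_zero hv) := by
  obtain ⟨h, h'⟩ := represents_mk Ff_hom hv (fmap_represents _)
  exact h'

lemma evalTuple_Ff_line (x w : Qb) : evalTuple Ff (line x w) = line (x ^ 2 - 2 * w ^ 2) (w ^ 2) := by
  rw [evalTuple_Ff]
  funext k
  have h21 : (r0 2 : Fin (9 + 1)) ≠ r0 1 := Ne.symm r0_1_ne_r0_2
  by_cases h1 : k = r0 1
  · subst h1
    simp [line, h21]
  · by_cases h2 : k = r0 2
    · subst h2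
      simp [line, h21]
    · simp [line, h1, h2]

theorem isPolarizedEndo_fmap : IsPolarizedEndo ℚ (Set.univ) fmap :=
  ⟨fun _ _ => Set.mem_univ _, 2, Ff, le_refl _, Ff_hom, fun p _ => fmap_represents p⟩

/-- the `j`-th chart of `g`. -/
noncomputable def Gg (j : Fin 5) : Fin (9 + 1) → MvPolynomial (Fin (9 + 1)) ℚ :=
  fun k => if k = r0 1 then X (r0 j) else if k = r0 2 then X (r1 j) else 0

lemma Gg_hom (j : Fin 5) (k : Fin (9 + 1)) : (Gg j k).IsHomogeneous 1 := by
  unfold Gg
  split_ifs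
  · exact isHomogeneous_X ℚ _
  · exact isHomogeneous_X ℚ _
  · exact isHomogeneous_zero _ _ _

lemma evalTuple_Gg (j : Fin 5) (v : Fin (9 + 1) → Qb) :
    evalTuple (Gg j) v = line (v (r0 j)) (v (r1 j)) := by
  funext k
  unfold evalTuple Gg line
  split_ifs <;> simp

lemma evalTuple_Gg_ne_zero_iff (j : Fin 5) (v : Fin (9 + 1) → Qb) :
    evalTuple (Gg j) v ≠ 0 ↔ (v (r0 j) ≠ 0 ∨ v (r1 j) ≠ 0) := by
  rw [evalTuple_Gg]
  constructor
  · intro h
    by_contra hcon
    push Not at hcon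
    apply h
    rw [hcon.1, hcon.2]
    funext k
    simp [line]
  · exact line_ne_zero

lemma exists_column (p : PN Qb 9) : ∃ j : Fin 5, evalTuple (Gg j) p.rep ≠ 0 := by
  by_contra hcon
  push Not at hcon
  apply p.rep_nonzero
  have h : ∀ j, p.rep (r0 j) = 0 ∧ p.rep (r1 j) = 0 := by
    intro j
    by_contra h
    have h' : p.rep (r0 j) ≠ 0 ∨ p.rep (r1 j) ≠ 0 := by tauto
    exact (evalTuple_Gg_ne_zero_iff j _).2 h' (hcon j)
  funext k
  exact cases10 (p := fun k => p.rep k = 0) (fun i => (h i).1) (fun i => (h i).2) k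

/-- the map `g` on points -/
noncomputable def gmap (p : PN Qb 9) : PN Qb 9 :=
  Projectivization.mk Qb (evalTuple (Gg (exists_column p).choose) p.rep) (exists_column p).choose_spec

lemma gmap_represents {p : PN Qb 9} (hp : p ∈ Zset) (j : Fin 5) (hj : evalTuple (Gg j) p.rep ≠ 0) :
    Represents (Gg j) gmap p := by
  refine ⟨hj, ?_⟩
  unfold gmap
  set i := (exists_column p).choose with hi
  have hi' : evalTuple (Gg i) p.rep ≠ 0 := (exists_column p).choose_spec
  have hZ := (mem_Zset_iff p).1 hp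
  have hmin := hZ.1 i j
  set v := p.rep with hv
  have hcol := (evalTuple_Gg_ne_zero_iff j v).1 hj
  -- column i is a multiple of column j
  obtain ⟨c, hc0, hc1⟩ : ∃ c : Qb, v (r0 i) = c * v (r0 j) ∧ v (r1 i) = c * v (r1 j) := by
    by_cases h0 : v (r0 j) = 0
    · have h1 : v (r1 j) ≠ 0 := by tauto
      refine ⟨v (r1 i) / v (r1 j), ?_, by field_simp⟩
      rw [h0] at hmin ⊢
      rw [zero_mul] at hmin
      rw [mul_zero]
      exact (mul_eq_zero.1 hmin).resolve_right h1
    · refine ⟨v (r0 i) / v (r0 j), by field_simp, ?_⟩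
      field_simp
      linear_combination -hmin
  apply mk_eq_mk_of _ _ c
  have e : evalTuple (Gg i) v = fun k => c * evalTuple (Gg j) v k := by
    rw [evalTuple_Gg, evalTuple_Gg, hc0, hc1]
    funext k
    simp only [line]
    split_ifs <;> simp
  exact e

lemma gmap_mem {p : PN Qb 9} (_hp : p ∈ Zset) : gmap p ∈ Zset := by
  unfold gmap
  rw [mk_mem_Zset_iff, evalTuple_Gg]
  exact isZ_line _ _

theorem isSelfMorphism_gmap : IsSelfMorphism ℚ Zset gmap := by
  refine ⟨fun p hp => gmap_mem hp, fun p _ => ?_⟩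
  obtain ⟨j, hj⟩ := exists_column p
  exact ⟨1, Gg j, Gg_hom j, hj, fun q hq hq' => gmap_represents hq j hq'⟩

/-- value of `g` at a Segre point -/
lemma gmap_seg {x w : Qb} {t : Fin 5 → Qb} (hxw : x ≠ 0 ∨ w ≠ 0)
    (hZ : IsZ (seg x w t)) (h0 : seg x w t ≠ 0) :
    gmap (Projectivization.mk Qb (seg x w t) h0) = Projectivization.mk Qb (line x w) (line_ne_zero hxw) := by
  obtain ⟨j, hj⟩ : ∃ j, t j ≠ 0 := by
    by_contra hcon
    push Not at hcon
    apply h0
    funext k
    exact cases10 (p := fun k => seg x w t k = 0) (fun i => by simp [hcon i]) (fun i => by simp [hcon i]) k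
  have hmem : Projectivization.mk Qb (seg x w t) h0 ∈ Zset := (mk_mem_Zset_iff h0).2 hZ
  have hne : evalTuple (Gg j) (seg x w t) ≠ 0 := by
    rw [evalTuple_Gg_ne_zero_iff, seg_r0, seg_r1]
    rcases hxw with h | h
    · exact Or.inl (mul_ne_zero h hj)
    · exact Or.inr (mul_ne_zero h hj)
  obtain ⟨c, hc, hrep⟩ := exists_rep (seg x w t) h0
  have hne' : evalTuple (Gg j) (Projectivization.mk Qb (seg x w t) h0).rep ≠ 0 := by
    rw [hrep, evalTuple_smul (Gg_hom j)]
    intro h
    apply hne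
    funext k
    have := congrFun h k
    simpa [hc] using this
  obtain ⟨h1, h2⟩ := represents_mk (Gg_hom j) h0 (gmap_represents hmem j hne')
  rw [h2]
  apply mk_eq_mk_of _ _ (t j)
  rw [evalTuple_Gg, seg_r0, seg_r1]
  funext k
  simp only [line]
  split_ifs <;> simp [mul_comm]

end Pool.Agent.Helper66_DML
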